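import Pool.Agent.H36.Dks4

open Pool.Agent.H36.Par Pool.Agent.H36.Dks

theorem Pool.Agent.Results.MP_93e790_lc.Hard.result :
    PReduces Clique kOf (fun _ => True) Dense mwOf :=
  main
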